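import Pool.Agent.Helper10.AB.GoalsF1

/-!
# Project AB (MP_1ef41b_an), packet TQ: the unimodular substitution in the torus integral
-/

open MeasureTheory Set Filter Topology

noncomputable section

namespace Pool.Agent.Helper77.AB

open Pool.Agent.Helper24.AB Pool.Agent.Helper10.AB

theorem tp_ne : (2 * Real.pi : ℝ) ≠ 0 := by positivity

/-- the basis `2π e_i` -/
def bb : Module.Basis (Fin 3) ℝ (Fin 3 → ℝ) :=
  (Pi.basisFun ℝ (Fin 3)).map (LinearEquiv.smulOfNeZero ℝ _ (2 * Real.pi) tp_ne)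

theorem bb_apply (i : Fin 3) : bb i = (2 * Real.pi) • Pi.single i 1 := by
  simp [bb]

theorem bb_repr (x : Fin 3 → ℝ) (i : Fin 3) : bb.repr x i = (2 * Real.pi)⁻¹ * x i := by
  have h : x = ∑ j, ((2 * Real.pi)⁻¹ * x j) • bb j := by
    funext l
    simp only [bb_apply, Finset.sum_apply, Pi.smul_apply, smul_eq_mul]
    rw [Finset.sum_eq_single l]
    · rw [Pi.single_eq_same]
      field_simp
    · intro j _ hj
      rw [Pi.single_eq_of_ne (Ne.symm hj)]
      ring
    · intro h; exact absurd (Finset.mem_univ _) h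
  conv_lhs => rw [h]
  rw [bb.repr_sum_self]

theorem T3_eq : ZSpan.fundamentalDomain bb = T3 := by
  ext x
  rw [ZSpan.mem_fundamentalDomain, T3, Set.mem_univ_pi]
  have hp : (0 : ℝ) < 2 * Real.pi := by positivity
  refine forall_congr' fun i => ?_
  rw [bb_repr, Set.mem_Ico, Set.mem_Ico, inv_mul_eq_div, le_div_iff₀ hp, div_lt_iff₀ hp]
  simp

/-- `Q` as a linear equivalence -/
def Qe : (Fin 3 → ℝ) ≃ₗ[ℝ] (Fin 3 → ℝ) where
  toFun := Q3
  invFun := fun θ => ![θ 0 - θ 1, 2 * θ 1 - θ 0, θ 2]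
  map_add' := by
    intro x y
    funext i
    fin_cases i <;> simp [Q3] <;> ring
  map_smul' := by
    intro c x
    funext i
    fin_cases i <;> simp [Q3] <;> ring
  left_inv := by
    intro x
    funext i
    fin_cases i <;> simp [Q3] <;> ring
  right_inv := by
    intro x
    funext i
    fin_cases i <;> simp [Q3] <;> ring

theorem Qe_apply (θ : Fin 3 → ℝ) : Qe θ = Q3 θ := rfl

theorem bq_apply (i : Fin 3) : (bb.map Qe) i = (2 * Real.pi) • Q3 (Pi.single i 1) := by
  rw [Module.Basis.map_apply, bb_apply, map_smul, Qe_apply]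

theorem span_eq : Submodule.span ℤ (Set.range (bb.map Qe)) = Submodule.span ℤ (Set.range bb) := by
  have hm : ∀ i, bb i ∈ Submodule.span ℤ (Set.range bb) := fun i =>
    Submodule.subset_span ⟨i, rfl⟩
  have hm' : ∀ i, (bb.map Qe) i ∈ Submodule.span ℤ (Set.range (bb.map Qe)) := fun i =>
    Submodule.subset_span ⟨i, rfl⟩
  have e0 : (bb.map Qe) 0 = (2 : ℤ) • bb 0 + bb 1 := by
    rw [bq_apply, bb_apply, bb_apply]
    funext i
    fin_cases i <;> simp [Q3] <;> ring
  have e1 : (bb.map Qe) 1 = bb 0 + bb 1 := by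
    rw [bq_apply, bb_apply, bb_apply]
    funext i
    fin_cases i <;> simp [Q3]
  have e2 : (bb.map Qe) 2 = bb 2 := by
    rw [bq_apply, bb_apply]
    funext i
    fin_cases i <;> simp [Q3]
  apply le_antisymm
  · rw [Submodule.span_le]
    rintro _ ⟨i, rfl⟩
    fin_cases i
    · show (bb.map Qe) 0 ∈ _
      rw [e0]
      exact Submodule.add_mem _ (Submodule.smul_mem _ _ (hm 0)) (hm 1)
    · show (bb.map Qe) 1 ∈ _
      rw [e1]
      exact Submodule.add_mem _ (hm 0) (hm 1)
    · show (bb.map Qe) 2 ∈ _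
      rw [e2]
      exact hm 2
  · rw [Submodule.span_le]
    have f0 : bb 0 = (bb.map Qe) 0 - (bb.map Qe) 1 := by
      rw [e0, e1, two_smul]; abel
    have f1 : bb 1 = (2 : ℤ) • (bb.map Qe) 1 - (bb.map Qe) 0 := by
      rw [e0, e1, two_smul, two_smul]; abel
    rintro _ ⟨i, rfl⟩
    fin_cases i
    · show bb 0 ∈ _
      rw [f0]
      exact Submodule.sub_mem _ (hm' 0) (hm' 1)
    · show bb 1 ∈ _
      rw [f1]
      exact Submodule.sub_mem _ (Submodule.smul_mem _ _ (hm' 1)) (hm' 0)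
    · show bb 2 ∈ _
      rw [← e2]
      exact hm' 2

theorem fd_image : ZSpan.fundamentalDomain (bb.map Qe) = Qe '' T3 := by
  rw [← T3_eq]
  ext x
  rw [ZSpan.mem_fundamentalDomain]
  constructor
  · intro h
    refine ⟨Qe.symm x, ?_, Qe.apply_symm_apply x⟩
    rw [ZSpan.mem_fundamentalDomain]
    intro i
    have := h i
    rwa [Module.Basis.map_repr, LinearEquiv.trans_apply] at this
  · rintro ⟨y, hy, rfl⟩ i
    rw [ZSpan.mem_fundamentalDomain] at hy
    rw [Module.Basis.map_repr, LinearEquiv.trans_apply, LinearEquiv.symm_apply_apply]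
    exact hy i

theorem Q_mp : MeasurePreserving Q3 (volume : Measure (Fin 3 → ℝ)) volume := by
  have hc : Continuous Q3 := by
    refine continuous_pi fun i => ?_
    fin_cases i <;> simp [Q3] <;> fun_prop
  refine ⟨hc.measurable, ?_⟩
  have hM : (!![(2 : ℝ), 1, 0; 1, 1, 0; 0, 0, 1] : Matrix (Fin 3) (Fin 3) ℝ).det = 1 := by
    rw [Matrix.det_fin_three]
    simp
    norm_num
  have h := Real.map_matrix_volume_pi_eq_smul_volume_pi
    (M := (!![(2 : ℝ), 1, 0; 1, 1, 0; 0, 0, 1] : Matrix (Fin 3) (Fin 3) ℝ)) (by rw [hM]; simp)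
  rw [hM] at h
  have e : (⇑(Matrix.toLin' (!![(2 : ℝ), 1, 0; 1, 1, 0; 0, 0, 1] : Matrix (Fin 3) (Fin 3) ℝ))) =
      Q3 := by
    funext θ i
    rw [Matrix.toLin'_apply]
    fin_cases i <;> simp [Q3, Matrix.mulVec, dotProduct, Fin.sum_univ_three]
  rw [e] at h
  rw [h]
  simp

/-- periodic functions have the same integral over `T3` and over `Q(T3)` -/
theorem int_eq (χ : (Fin 3 → ℝ) → ℂ) (hχ : ∀ θ k, χ (tr2 θ k) = χ θ) :
    ∫ θ in T3, χ (Q3 θ) = ∫ θ in T3, χ θ := by
  have h1 := ZSpan.isAddFundamentalDomain' bb (volume : Measure (Fin 3 → ℝ))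
  have h2 := ZSpan.isAddFundamentalDomain' (bb.map Qe) (volume : Measure (Fin 3 → ℝ))
  rw [span_eq] at h2
  have hcount : Countable (Submodule.span ℤ (Set.range bb)).toAddSubgroup :=
    inferInstanceAs (Countable (Submodule.span ℤ (Set.range bb)))
  have h3 := h1.setIntegral_eq h2 (f := χ) (fun g x => by
    obtain ⟨g, hg⟩ := g
    obtain ⟨c, hc⟩ := (Submodule.mem_span_range_iff_exists_fun ℤ).1 hg
    have e : (⟨g, hg⟩ : (Submodule.span ℤ (Set.range bb)).toAddSubgroup) +ᵥ x = tr2 x c := by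
      show g + x = tr2 x c
      rw [← hc]
      funext i
      simp only [Pi.add_apply, Finset.sum_apply, tr2, Pi.smul_apply, bb_apply, smul_eq_mul]
      rw [Finset.sum_eq_single i]
      · rw [Pi.single_eq_same]
        simp
        ring
      · intro j _ hj
        rw [Pi.single_eq_of_ne (Ne.symm hj)]
        simp
      · intro h; exact absurd (Finset.mem_univ _) h
    rw [e, hχ])
  rw [T3_eq, fd_image] at h3
  rw [h3]
  have hemb : MeasurableEmbedding Q3 := by
    have : MeasurableEmbedding (Qe.toContinuousLinearEquiv.toHomeomorph) :=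
      Homeomorph.measurableEmbedding _
    exact this
  have h4 := Q_mp.setIntegral_preimage_emb hemb χ (Qe '' T3)
  have h5 : Q3 ⁻¹' (Qe '' T3) = T3 := by
    have : Q3 = ⇑Qe := rfl
    rw [this]
    exact Set.preimage_image_eq _ Qe.injective
  rw [h5] at h4
  exact h4

theorem tq : S_TQ := by
  intro φ ψ hφ hψ h J
  rw [tm, tm]
  congr 1
  rw [← int_eq (fun θ => ψ θ * Complex.exp (-(Complex.I * (Jd J θ : ℝ))))]
  · congr 1
    funext θ
    rw [h]
    congr 4
    simp only [Jd, Q3, Jn]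
    simp
    ring
  · intro θ k
    rw [hψ.2]
    congr 1
    have e : Jd J (tr2 θ k) = Jd J θ + 2 * Real.pi * ((J 0 * k 0 + J 1 * k 1 + J 2 * k 2 : ℤ) : ℝ) := by
      simp only [Jd, tr2]
      push_cast
      ring
    rw [e]
    have e2 : -(Complex.I * ((Jd J θ + 2 * Real.pi *
        ((J 0 * k 0 + J 1 * k 1 + J 2 * k 2 : ℤ) : ℝ) : ℝ) : ℂ)) =
        -(Complex.I * (Jd J θ : ℝ)) +
          ((-(J 0 * k 0 + J 1 * k 1 + J 2 * k 2) : ℤ) : ℂ) * (2 * Real.pi * Complex.I) := by
      push_cast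
      ring
    rw [e2, Complex.exp_add, Complex.exp_int_mul_two_pi_mul_I, mul_one]

end Pool.Agent.Helper77.AB
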